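import Pool.Agent.TH867.SB.Ref

/-! The choice of the prescribed primes for triples divisible by given primes. -/

set_option autoImplicit false

namespace Pool.Agent.X61.LP

open Finset
open Pool.Agent.TH867.SR (Tr N3 vv rr rr_sum rr_nonneg Light Scale Good InP good_of side_part light_of
  log_prime_nonneg perm3 side_sum log_N3 log_member_le log_one_ge)

/-- a member and a prime of another one -/
theorem caseP {k : ℕ} (hk : 2 ≤ k) {X l : ℝ} {t : Fin 3 → ℕ} (h : Tr t) (hT : 2 ≤ Real.log (t 2))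
    (hs : Scale k l t) {A B C : Fin 3} (hAB : A ≠ B) (hBC : B ≠ C) (hAC : A ≠ C)
    (hbig : Real.log (t 2) / 2 ≤ Real.log (t A)) {p : ℕ} (hp : p ∈ (t B).primeFactors)
    (hpX : (p : ℝ) ≤ X) :
    ∃ p' ∈ (t A).primeFactors, ∃ S : Finset ℕ, (∀ q ∈ S, q.Prime) ∧ Good k X l S t ∧
      ∑ q ∈ S, Real.log q ≤ rr t B - Real.log p + rr t C + (2 / k * rr t A + Real.log p') := by
  obtain ⟨p', hp', Q, hQ, w, c⟩ := side_part (k := k) (by omega) h (j := A) (by linarith) hk hbig
  obtain ⟨S, g1, g2, g3⟩ := good_of (X := X) h hs hAB hBC hAC hp hpX hQ w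
  exact ⟨p', hp', S, g1, g2, by rw [g3]; linarith⟩

/-- a light set: two members and a part of the third one -/
theorem caseL {k : ℕ} (hk : 2 ≤ k) {X l : ℝ} {t : Fin 3 → ℕ} (h : Tr t) (hT : 2 ≤ Real.log (t 2))
    {A B C : Fin 3} (hAB : A ≠ B) (hBC : B ≠ C) (hAC : A ≠ C)
    (hbig : Real.log (t 2) / 2 ≤ Real.log (t A)) :
    ∃ p' ∈ (t A).primeFactors, ∃ S : Finset ℕ, (∀ q ∈ S, q.Prime) ∧ Good k X l S t ∧
      ∑ q ∈ S, Real.log q ≤ rr t B + rr t C + (2 / k * rr t A + Real.log p') := by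
  classical
  obtain ⟨p', hp', Q, hQ, w, c⟩ := side_part (k := k) (by omega) h (j := A) (by linarith) hk hbig
  have hUp : ∀ q ∈ (t B).primeFactors ∪ (t C).primeFactors ∪ Q, q.Prime := by
    intro q hq
    rcases mem_union.1 hq with hq | hq
    · rcases mem_union.1 hq with hq | hq
      · exact Nat.prime_of_mem_primeFactors hq
      · exact Nat.prime_of_mem_primeFactors hq
    · exact Nat.prime_of_mem_primeFactors (hQ hq)
  refine ⟨p', hp', (t B).primeFactors ∪ (t C).primeFactors ∪ Q, hUp, Or.inl ?_, ?_⟩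
  · exact light_of (S := ∅) hAB hBC hAC h hUp (subset_union_left.trans subset_union_left)
      (subset_union_right.trans subset_union_left) subset_union_right
      (fun q hq => Nat.dvd_of_mem_primeFactors (hQ hq)) w
  · have hnn : ∀ q ∈ (t B).primeFactors ∪ (t C).primeFactors ∪ Q, 0 ≤ Real.log (q : ℝ) :=
      fun q hq => log_prime_nonneg (hUp q hq)
    have e1 : ∑ q ∈ (t B).primeFactors ∪ (t C).primeFactors ∪ Q, Real.log (q : ℝ) ≤
        ∑ q ∈ (t B).primeFactors ∪ (t C).primeFactors, Real.log (q : ℝ) +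
          ∑ q ∈ Q, Real.log (q : ℝ) := by
      rw [← sum_union_inter]
      exact le_add_of_nonneg_right (sum_nonneg fun q hq =>
        hnn q (mem_union_right _ (mem_inter.1 hq).2))
    have e2 : ∑ q ∈ (t B).primeFactors ∪ (t C).primeFactors, Real.log (q : ℝ) = rr t B + rr t C := by
      rw [sum_union (h.cop' hBC).disjoint_primeFactors]
      rfl
    linarith

/-- the first member is small -/
theorem case0 {k : ℕ} (hk : 2 ≤ k) {X l : ℝ} {t : Fin 3 → ℕ} (h : Tr t) (hT : 2 ≤ Real.log (t 2))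
    (hsm : Real.log (t 0) ≤ Real.log (t 2) / 2) :
    ∃ S : Finset ℕ, (∀ q ∈ S, q.Prime) ∧ Good k X l S t ∧
      ∑ q ∈ S, Real.log q ≤ rr t 1 + rr t 2 := by
  classical
  refine ⟨(t 1).primeFactors ∪ (t 2).primeFactors, fun q hq => ?_, Or.inl ?_, ?_⟩
  · rcases mem_union.1 hq with hq | hq
    · exact Nat.prime_of_mem_primeFactors hq
    · exact Nat.prime_of_mem_primeFactors hq
  · rw [Light, sum_union (h.cop' (by decide)).disjoint_primeFactors, side_sum h, side_sum h, log_N3 h]
    have hk2 : (2 : ℝ) ≤ k := by exact_mod_cast hk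
    have e2 : (1 - 1 / (k : ℝ)) * Real.log (t 2) = Real.log (t 2) - Real.log (t 2) / k := by ring
    have e3 : Real.log (t 2) / k ≤ Real.log (t 2) / 2 :=
      div_le_div_of_nonneg_left (by linarith) (by norm_num) hk2
    rw [e2]
    linarith
  · rw [sum_union (h.cop' (by decide)).disjoint_primeFactors]
    exact le_rfl

/-- the primes of `J` dividing the member `i` -/
def part (J : Finset ℕ) (t : Fin 3 → ℕ) (i : Fin 3) : Finset ℕ := J.filter (fun q => q ∣ t i)

theorem part_sub {J : Finset ℕ} {t : Fin 3 → ℕ} (h : Tr t) (hJ : J ⊆ (N3 t).primeFactors) (i : Fin 3) :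
    part J t i ⊆ (t i).primeFactors := by
  intro q hq
  rw [part, mem_filter] at hq
  exact Nat.mem_primeFactors.2 ⟨Nat.prime_of_mem_primeFactors (hJ hq.1), hq.2, (h.pos' i).ne'⟩

theorem part_union {J : Finset ℕ} {t : Fin 3 → ℕ} (h : Tr t) (hJ : J ⊆ (N3 t).primeFactors)
    (f : ℕ → ℝ) : ∑ q ∈ J, f q = ∑ i, ∑ q ∈ part J t i, f q := by
  classical
  have h1 : J = univ.biUnion (part J t) := by
    ext q
    simp only [part, mem_biUnion, mem_univ, true_and, mem_filter]
    constructor
    · intro hq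
      have hq' := Nat.mem_primeFactors.1 (hJ hq)
      have h2 : q ∣ t 0 * t 1 * t 2 := hq'.2.1
      rcases (Nat.Prime.dvd_mul hq'.1).1 h2 with h3 | h3
      · rcases (Nat.Prime.dvd_mul hq'.1).1 h3 with h4 | h4
        · exact ⟨0, hq, h4⟩
        · exact ⟨1, hq, h4⟩
      · exact ⟨2, hq, h3⟩
    · rintro ⟨i, hq, -⟩
      exact hq
  conv_lhs => rw [h1]
  rw [sum_biUnion]
  intro i _ j _ hij
  rw [Function.onFun, disjoint_left]
  intro q hq hq'
  exact hij (h.uniq (Nat.prime_of_mem_primeFactors (hJ (mem_filter.1 hq).1)) (mem_filter.1 hq).2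
    (mem_filter.1 hq').2)

/-- the weight of the primes of the member `i` outside `J` -/
noncomputable def out (J : Finset ℕ) (t : Fin 3 → ℕ) (i : Fin 3) : ℝ :=
  rr t i - ∑ q ∈ part J t i, Real.log q

theorem out_eq {J : Finset ℕ} {t : Fin 3 → ℕ} (h : Tr t) (hJ : J ⊆ (N3 t).primeFactors) (i : Fin 3) :
    out J t i = ∑ q ∈ (t i).primeFactors \ part J t i, Real.log (q : ℝ) := by
  classical
  rw [out, rr, ← sum_sdiff (part_sub h hJ i)]
  ring

theorem out_nonneg {J : Finset ℕ} {t : Fin 3 → ℕ} (h : Tr t) (hJ : J ⊆ (N3 t).primeFactors) (i : Fin 3) :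
    0 ≤ out J t i := by
  rw [out_eq h hJ]
  exact sum_nonneg fun q hq => log_prime_nonneg (Nat.prime_of_mem_primeFactors (mem_sdiff.1 hq).1)

/-- **The choice.** -/
theorem choiceJ {k : ℕ} (hk : 2 ≤ k) {X l : ℝ} (hl : 2 ≤ l) {t : Fin 3 → ℕ} (h : Tr t)
    (hs : Scale k l t) (hX : ∀ j, ∀ p ∈ (t j).primeFactors, (p : ℝ) ≤ X) {J : Finset ℕ}
    (hJ : J ⊆ (N3 t).primeFactors) {n y : ℝ} (hn : 0 ≤ n) (hJn : ∀ q ∈ J, Real.log (q : ℝ) ≤ n)
    (hy : rr t 0 + rr t 1 + rr t 2 - ∑ q ∈ J, Real.log (q : ℝ) ≤ y) {a : ℕ} (hJ1 : 1 ≤ J.card)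
    (ha1 : J.card ≤ 3 * a) (ha2 : 3 * a ≤ J.card + 2) :
    ∃ S : Finset ℕ, (∀ q ∈ S, q.Prime) ∧ Good k X l S t ∧
      ∑ q ∈ S, Real.log q ≤ ((J.card : ℝ) - a) * n + y +
        2 / k * (rr t 0 + rr t 1 + rr t 2) := by
  classical
  have hT : 2 ≤ Real.log (t 2) := hl.trans hs.1
  have hk0 : (0 : ℝ) < k := by
    have : 0 < k := by omega
    exact_mod_cast this
  have h2k : 0 < 2 / (k : ℝ) := by positivity
  have l2 := Real.log_two_lt_d9
  have r := rr_nonneg t
  have o := out_nonneg h hJ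
  obtain ⟨s, hsd⟩ : ∃ s : Fin 3 → ℝ, s = fun i => ∑ q ∈ part J t i, Real.log (q : ℝ) := ⟨_, rfl⟩
  obtain ⟨c, hcd⟩ : ∃ c : Fin 3 → ℕ, c = fun i => (part J t i).card := ⟨_, rfl⟩
  have hrs : ∀ i, rr t i = s i + out J t i := fun i => by
    rw [hsd, out]
    ring
  have hsc : ∀ i, s i ≤ c i * n := by
    intro i
    rw [hsd, hcd]
    have : ∑ q ∈ part J t i, Real.log (q : ℝ) ≤ ∑ _q ∈ part J t i, n :=
      sum_le_sum fun q hq => hJn q (mem_filter.1 hq).1
    rwa [sum_const, nsmul_eq_mul] at this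
  have hctot : c 0 + c 1 + c 2 = J.card := by
    have := part_union h hJ (fun _ => (1 : ℝ))
    rw [Fin.sum_univ_three] at this
    simp only [sum_const, nsmul_eq_mul, mul_one] at this
    rw [hcd]
    exact_mod_cast this.symm
  have hstot : s 0 + s 1 + s 2 = ∑ q ∈ J, Real.log (q : ℝ) := by
    have := part_union h hJ (fun q => Real.log (q : ℝ))
    rw [Fin.sum_univ_three] at this
    rw [hsd]
    exact this.symm
  have hytot : out J t 0 + out J t 1 + out J t 2 ≤ y := by
    have h0 := hrs 0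
    have h1 := hrs 1
    have h2 := hrs 2
    linarith
  have hbig : ∀ j : Fin 3, j ≠ 0 → Real.log (t 2) / 2 ≤ Real.log (t j) := by
    intro j hj
    fin_cases j
    · exact absurd rfl hj
    · show Real.log (t 2) / 2 ≤ Real.log (t 1)
      have := log_one_ge h
      linarith
    · show Real.log (t 2) / 2 ≤ Real.log (t 2)
      linarith
  -- removing a prime of `J`
  have hrem : ∀ i, ∀ p ∈ part J t i, rr t i - Real.log (p : ℝ) ≤ ((c i : ℝ) - 1) * n + out J t i := by
    intro i p hp
    have e1 := add_sum_erase (part J t i) (fun q : ℕ => Real.log (q : ℝ)) hp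
    have e2 : ∑ q ∈ (part J t i).erase p, Real.log (q : ℝ) ≤ ∑ _q ∈ (part J t i).erase p, n :=
      sum_le_sum fun q hq => hJn q (mem_filter.1 (mem_of_mem_erase hq)).1
    rw [sum_const, nsmul_eq_mul, card_erase_of_mem hp, Nat.cast_sub (card_pos.2 ⟨p, hp⟩),
      Nat.cast_one] at e2
    have e3 := hrs i
    simp only [hsd] at e3
    rw [hcd]
    simp only
    linarith
  rcases Nat.lt_or_ge J.card 2 with hJ2 | hJ2
  · -- one prime
    have hJc : J.card = 1 := by omega
    have ha : a = 1 := by omega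
    have hB : ∃ B, c B = 1 := by
      by_contra hcon
      push Not at hcon
      have h0 := hcon 0
      have h1 := hcon 1
      have h2 := hcon 2
      omega
    obtain ⟨B, hB⟩ := hB
    have hcB : ∀ i, i ≠ B → c i = 0 := by
      intro i hi
      fin_cases i <;> fin_cases B <;> simp at hi hB ⊢ <;> omega
    obtain ⟨p, hp⟩ := card_pos.1 (show 0 < (part J t B).card by
      have : c B = (part J t B).card := by rw [hcd]
      omega)
    have hsi : ∀ i, i ≠ B → s i = 0 := by
      intro i hi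
      have h1 := hcB i hi
      rw [hcd] at h1
      rw [hsd]
      simp only at h1 ⊢
      rw [card_eq_zero.1 h1, sum_empty]
    obtain ⟨A, C, hAB, hBC, hAC, hA0⟩ : ∃ A C : Fin 3, A ≠ B ∧ B ≠ C ∧ A ≠ C ∧ A ≠ 0 := by
      fin_cases B
      · exact ⟨1, 2, by decide, by decide, by decide, by decide⟩
      · exact ⟨2, 0, by decide, by decide, by decide, by decide⟩
      · exact ⟨1, 0, by decide, by decide, by decide, by decide⟩
    have hpB := part_sub h hJ B hp
    obtain ⟨p', hp', S, g1, g2, g3⟩ := caseP hk (X := X) h hT hs hAB hBC hAC (hbig A hA0) hpB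
      (hX B p hpB)
    refine ⟨S, g1, g2, g3.trans ?_⟩
    have e1 := hrem B p hp
    have e2 : Real.log (p' : ℝ) ≤ rr t A :=
      single_le_sum (f := fun q : ℕ => Real.log (q : ℝ))
        (fun q hq => log_prime_nonneg (Nat.prime_of_mem_primeFactors hq)) hp'
    have e3 := perm3 hAB hBC hAC (rr t)
    have e4 := perm3 hAB hBC hAC (out J t)
    have e5 := hrs A
    have e6 := hrs C
    rw [hsi A hAB] at e5
    rw [hsi C hBC.symm] at e6
    rw [hB] at e1
    rw [hJc, ha, e3]
    have m1 := mul_nonneg h2k.le (r B)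
    have m2 := mul_nonneg h2k.le (r C)
    rw [e4] at hytot
    push_cast at e1 ⊢
    have e7 : 2 / (k : ℝ) * (rr t A + rr t B + rr t C) =
      2 / (k : ℝ) * rr t A + 2 / (k : ℝ) * rr t B + 2 / (k : ℝ) * rr t C := by ring
    rw [e7]
    linarith
  -- several primes
  obtain ⟨A, -, hA⟩ := exists_max_image (univ : Finset (Fin 3)) c ⟨0, mem_univ _⟩
  have haA : a ≤ c A := by
    have h0 := hA 0 (mem_univ _)
    have h1 := hA 1 (mem_univ _)
    have h2 := hA 2 (mem_univ _)
    omega
  have haAr : (a : ℝ) ≤ c A := by exact_mod_cast haA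
  have haJ : (1 : ℝ) ≤ (J.card : ℝ) - a := by
    have : a + 1 ≤ J.card := by omega
    have h2 : ((a + 1 : ℕ) : ℝ) ≤ J.card := by exact_mod_cast this
    push_cast at h2
    linarith
  obtain ⟨B, C, hAB, hBC, hAC⟩ : ∃ B C : Fin 3, A ≠ B ∧ B ≠ C ∧ A ≠ C := by
    fin_cases A
    · exact ⟨1, 2, by decide, by decide, by decide⟩
    · exact ⟨2, 0, by decide, by decide, by decide⟩
    · exact ⟨1, 0, by decide, by decide, by decide⟩
  have hcr : ((J.card : ℝ)) = c A + c B + c C := by
    have := perm3 hAB hBC hAC (fun i => (c i : ℝ))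
    rw [← this]
    exact_mod_cast hctot.symm
  have e3 := perm3 hAB hBC hAC (rr t)
  have e4 := perm3 hAB hBC hAC (out J t)
  have hoA := o A
  have hoB := o B
  have hoC := o C
  rw [e4] at hytot
  rw [e3]
  have m0 := mul_nonneg h2k.le (r A)
  have m1 := mul_nonneg h2k.le (r B)
  have m2 := mul_nonneg h2k.le (r C)
  have e7 : 2 / (k : ℝ) * (rr t A + rr t B + rr t C) =
    2 / (k : ℝ) * rr t A + 2 / (k : ℝ) * rr t B + 2 / (k : ℝ) * rr t C := by ring
  rw [e7]
  have hcnB : (c B : ℝ) * n + (c C : ℝ) * n ≤ ((J.card : ℝ) - a) * n := by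
    have : (c B : ℝ) + c C ≤ (J.card : ℝ) - a := by linarith
    nlinarith
  have hrB := hrs B
  have hrC := hrs C
  have hsB := hsc B
  have hsC := hsc C
  by_cases hsmall : A = 0 ∧ Real.log (t 0) < Real.log (t 2) / 2
  · obtain ⟨hA0, hsm⟩ := hsmall
    obtain ⟨S, g1, g2, g3⟩ := case0 hk (X := X) (l := l) h hT hsm.le
    refine ⟨S, g1, g2, g3.trans ?_⟩
    have e8 : rr t 1 + rr t 2 = rr t B + rr t C := by
      have := e3
      rw [hA0] at this
      linarith
    rw [e8]
    linarith
  · have hAbig : Real.log (t 2) / 2 ≤ Real.log (t A) := by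
      by_cases hA0 : A = 0
      · rw [hA0]
        by_contra hcon
        push Not at hcon
        exact hsmall ⟨hA0, hcon⟩
      · exact hbig A hA0
    -- the largest prime of the part of `A`
    have hp'le : ∀ p' ∈ (t A).primeFactors, Real.log (p' : ℝ) ≤ n + out J t A := by
      intro p' hp'
      by_cases hJp : p' ∈ part J t A
      · have := hJn p' (mem_filter.1 hJp).1
        linarith
      · rw [out_eq h hJ]
        have : Real.log (p' : ℝ) ≤ ∑ q ∈ (t A).primeFactors \ part J t A, Real.log (q : ℝ) :=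
          single_le_sum (f := fun q : ℕ => Real.log (q : ℝ))
            (fun q hq => log_prime_nonneg (Nat.prime_of_mem_primeFactors (mem_sdiff.1 hq).1))
            (mem_sdiff.2 ⟨hp', hJp⟩)
        linarith
    rcases (part J t B).eq_empty_or_nonempty with hBe | ⟨p, hp⟩
    · rcases (part J t C).eq_empty_or_nonempty with hCe | ⟨p, hp⟩
      · -- all the primes divide `A`
        obtain ⟨p', hp', S, g1, g2, g3⟩ := caseL hk (X := X) (l := l) h hT hAB hBC hAC hAbig
        refine ⟨S, g1, g2, g3.trans ?_⟩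
        have f1 := hp'le p' hp'
        have hB0 : s B = 0 := by
          rw [hsd]
          simp only
          rw [hBe, sum_empty]
        have hC0 : s C = 0 := by
          rw [hsd]
          simp only
          rw [hCe, sum_empty]
        rw [hB0] at hrB
        rw [hC0] at hrC
        have : n ≤ ((J.card : ℝ) - a) * n := by nlinarith
        linarith
      · have hpC := part_sub h hJ C hp
        obtain ⟨p', hp', S, g1, g2, g3⟩ := caseP hk (X := X) h hT hs hAC hBC.symm hAB hAbig hpC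
          (hX C p hpC)
        refine ⟨S, g1, g2, g3.trans ?_⟩
        have f1 := hp'le p' hp'
        have f2 := hrem C p hp
        linarith
    · have hpB := part_sub h hJ B hp
      obtain ⟨p', hp', S, g1, g2, g3⟩ := caseP hk (X := X) h hT hs hAB hBC hAC hAbig hpB
        (hX B p hpB)
      refine ⟨S, g1, g2, g3.trans ?_⟩
      have f1 := hp'le p' hp'
      have f2 := hrem B p hp
      linarith

end Pool.Agent.X61.LP
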