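import Pool.Agent.X61.LP.Choice

/-! Triples of all heights divisible by given primes. -/

set_option autoImplicit false

namespace Pool.Agent.X61.LP

open Finset
open Pool.Agent.TH867.SR (Tr N3 rr rr_sum rr_nonneg Light Scale Good log_prod_primes log_prime_nonneg
  perm3)
open Pool.Agent.TH867.SM (sqf)
open Pool.Agent.TH867.SB (SF mem_SF PP by_radical small_gen count_gen radi radi_pf radi_pos radi_le)

/-- the triples, of any height, divisible by `j` primes of logarithm at most `n` such that the sum of the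
logarithms of the other primes is at most `y` -/
def Cls (j : ℕ) (n y : ℝ) (t : Fin 3 → ℕ) : Prop :=
  Tr t ∧ ∃ J : Finset ℕ, J.card = j ∧ J ⊆ (N3 t).primeFactors ∧ (∀ q ∈ J, Real.log (q : ℝ) ≤ n) ∧
    rr t 0 + rr t 1 + rr t 2 - ∑ q ∈ J, Real.log (q : ℝ) ≤ y

theorem Cls.rr_le {j : ℕ} {n y : ℝ} {t : Fin 3 → ℕ} (h : Cls j n y t) :
    rr t 0 + rr t 1 + rr t 2 ≤ j * n + y := by
  obtain ⟨-, J, h1, -, h3, h4⟩ := h
  have : ∑ q ∈ J, Real.log (q : ℝ) ≤ ∑ _q ∈ J, n := sum_le_sum h3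
  rw [sum_const, nsmul_eq_mul, h1] at this
  linarith

/-- the set of prescribed primes, as an integer -/
theorem good_mJ {k : ℕ} (hk : 2 ≤ k) {X l : ℝ} (hX : 1 ≤ X) (hl : 2 ≤ l) {t : Fin 3 → ℕ}
    (hs : Scale k l t) {j a : ℕ} {n y : ℝ} (hn : 0 ≤ n) (h : Cls j n y t) (hj : 1 ≤ j)
    (ha1 : j ≤ 3 * a) (ha2 : 3 * a ≤ j + 2) (hXe : Real.log X = j * n + y) :
    ∃ w ∈ SF ⌊Real.exp (((j : ℝ) - a) * n + y + 2 / k * Real.log X)⌋₊,
      Light k w.primeFactors t ∨ ∃ p, PP k X l w t p := by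
  have hX0 : 0 < X := by linarith
  have hr0 := rr_nonneg t 0
  have hr1 := rr_nonneg t 1
  have hr2 := rr_nonneg t 2
  have hr := h.rr_le
  rw [← hXe] at hr
  have hpX : ∀ j, ∀ p ∈ (t j).primeFactors, (p : ℝ) ≤ X := by
    intro j p hp
    have hp0 : (0 : ℝ) < p := by exact_mod_cast (Nat.prime_of_mem_primeFactors hp).pos
    have h4 : Real.log p ≤ rr t j :=
      Finset.single_le_sum (f := fun q : ℕ => Real.log (q : ℝ))
        (fun q hq => log_prime_nonneg (Nat.prime_of_mem_primeFactors hq)) hp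
    have h5 : rr t j ≤ Real.log X := by
      refine le_trans ?_ hr
      fin_cases j
      · show rr t 0 ≤ _; linarith
      · show rr t 1 ≤ _; linarith
      · show rr t 2 ≤ _; linarith
    exact (Real.log_le_log_iff hp0 hX0).1 (h4.trans h5)
  obtain ⟨htr, J, hJc, hJs, hJn, hJy⟩ := h
  obtain ⟨S, hS, hgood, hsum⟩ := choiceJ hk (X := X) (l := l) hl htr hs hpX hJs hn hJn hJy
    (a := a) (by omega) (by omega) (by omega)
  have hk0 : (0 : ℝ) < k := by
    have : 0 < k := by omega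
    exact_mod_cast this
  have hpf : (∏ q ∈ S, q).primeFactors = S := Nat.primeFactors_prod hS
  have hmpos : 0 < ∏ q ∈ S, q := Finset.prod_pos fun q hq => (hS q hq).pos
  have hmM : ((∏ q ∈ S, q : ℕ) : ℝ) ≤ Real.exp (((j : ℝ) - a) * n + y + 2 / k * Real.log X) := by
    rw [← Real.log_le_iff_le_exp (by exact_mod_cast hmpos), log_prod_primes hS]
    refine hsum.trans ?_
    rw [hJc]
    have : 2 / (k : ℝ) * (rr t 0 + rr t 1 + rr t 2) ≤ 2 / k * Real.log X :=
      mul_le_mul_of_nonneg_left hr (by positivity)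
    linarith
  refine ⟨∏ q ∈ S, q, mem_SF.2 ⟨⟨hmpos, Nat.le_floor hmM⟩, sqf hS⟩, ?_⟩
  rw [hpf]
  rcases hgood with hg | ⟨A, B, C, Q, e, p, hAB, hBC, hAC, hP⟩
  · exact Or.inl hg
  · refine Or.inr ⟨p, A, B, C, Q, e, hAB, hBC, hAC, ?_⟩
    rw [hpf]
    exact hP

/-- two members with a small radical -/
theorem pairJ {t : Fin 3 → ℕ} {j a : ℕ} {n y : ℝ} (hn : 0 ≤ n) (h : Cls j n y t)
    (ha2 : 3 * a ≤ j + 2) :
    ∃ A B : Fin 3, A ≠ B ∧ rr t A + rr t B ≤ ((j : ℝ) - a) * n + y := by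
  classical
  obtain ⟨htr, J, hJc, hJs, hJn, hJy⟩ := h
  have o := out_nonneg htr hJs
  obtain ⟨s, hsd⟩ : ∃ s : Fin 3 → ℝ, s = fun i => ∑ q ∈ part J t i, Real.log (q : ℝ) := ⟨_, rfl⟩
  obtain ⟨c, hcd⟩ : ∃ c : Fin 3 → ℕ, c = fun i => (part J t i).card := ⟨_, rfl⟩
  have hrs : ∀ i, rr t i = s i + out J t i := fun i => by
    rw [hsd, out]
    ring
  have hsc : ∀ i, s i ≤ c i * n := by
    intro i
    rw [hsd, hcd]
    have : ∑ q ∈ part J t i, Real.log (q : ℝ) ≤ ∑ _q ∈ part J t i, n :=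
      sum_le_sum fun q hq => hJn q (mem_filter.1 hq).1
    rwa [sum_const, nsmul_eq_mul] at this
  have hctot : c 0 + c 1 + c 2 = J.card := by
    have := part_union htr hJs (fun _ => (1 : ℝ))
    rw [Fin.sum_univ_three] at this
    simp only [sum_const, nsmul_eq_mul, mul_one] at this
    rw [hcd]
    exact_mod_cast this.symm
  have hstot : s 0 + s 1 + s 2 = ∑ q ∈ J, Real.log (q : ℝ) := by
    have := part_union htr hJs (fun q => Real.log (q : ℝ))
    rw [Fin.sum_univ_three] at this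
    rw [hsd]
    exact this.symm
  have hytot : out J t 0 + out J t 1 + out J t 2 ≤ y := by
    have h0 := hrs 0
    have h1 := hrs 1
    have h2 := hrs 2
    linarith
  obtain ⟨C, -, hC⟩ := exists_max_image (univ : Finset (Fin 3)) c ⟨0, mem_univ _⟩
  have haC : a ≤ c C := by
    have h0 := hC 0 (mem_univ _)
    have h1 := hC 1 (mem_univ _)
    have h2 := hC 2 (mem_univ _)
    omega
  have haCr : (a : ℝ) ≤ c C := by exact_mod_cast haC
  obtain ⟨A, B, hAB, hBC, hAC⟩ : ∃ A B : Fin 3, A ≠ B ∧ B ≠ C ∧ A ≠ C := by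
    fin_cases C
    · exact ⟨1, 2, by decide, by decide, by decide⟩
    · exact ⟨2, 0, by decide, by decide, by decide⟩
    · exact ⟨1, 0, by decide, by decide, by decide⟩
  refine ⟨A, B, hAB, ?_⟩
  have hcr : ((J.card : ℝ)) = c A + c B + c C := by
    have := perm3 hAB hBC hAC (fun i => (c i : ℝ))
    rw [← this]
    exact_mod_cast hctot.symm
  have e4 := perm3 hAB hBC hAC (out J t)
  have hoC := o C
  have hrA := hrs A
  have hrB := hrs B
  have hsA := hsc A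
  have hsB := hsc B
  rw [hJc] at hcr
  have : (c A : ℝ) * n + (c B : ℝ) * n ≤ ((j : ℝ) - a) * n := by
    have : (c A : ℝ) + c B ≤ (j : ℝ) - a := by linarith
    nlinarith
  linarith

/-- **The count of the triples of all heights divisible by `j` primes.** -/
theorem count_J (ε : ℝ) (hε : 0 < ε) : ∃ D : ℝ, 0 < D ∧ ∀ (n y : ℝ) (j a : ℕ), 0 ≤ n → 0 ≤ y →
    y ≤ j * n → 1 ≤ j → j ≤ 3 * a → 3 * a ≤ j + 2 → ∀ F : Finset (Fin 3 → ℕ),
    (∀ t ∈ F, Cls j n y t) →
    (F.card : ℝ) ≤ D * Real.exp (ε * (j * n + y)) * Real.exp (((j : ℝ) - a) * n + y) := by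
  classical
  obtain ⟨k0, hk0⟩ : ∃ k0 : ℕ, 7 / ε ≤ k0 := exists_nat_ge _
  obtain ⟨k, hk⟩ : ∃ k, k = k0 + 24 := ⟨_, rfl⟩
  have hk24 : (24 : ℝ) ≤ k := by
    have : 24 ≤ k := by omega
    exact_mod_cast this
  have hkp : (0 : ℝ) < k := by linarith
  have hk3 : 3 ≤ k := by omega
  have hkε : 7 / (k : ℝ) ≤ ε := by
    have h1 : 7 / ε ≤ (k : ℝ) := hk0.trans (by rw [hk]; push_cast; linarith)
    rw [div_le_iff₀ hε] at h1
    rw [div_le_iff₀ hkp]
    linarith
  obtain ⟨Da, hDa, hrad⟩ := by_radical 1 one_pos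
  obtain ⟨η, hη, L1, hL1, hsmall⟩ := small_gen ε hε
  obtain ⟨D1, hD1, X1, hX11, hcnt⟩ := count_gen hk3 hη
  obtain ⟨X0, hX0e⟩ : ∃ X0, X0 = max X1 (Real.exp L1) := ⟨_, rfl⟩
  have hX01 : 1 ≤ X0 := by
    rw [hX0e]
    exact hX11.trans (le_max_left _ _)
  have hX0p : 0 < X0 := by linarith
  refine ⟨Da * X0 * X0 ^ (1 : ℝ) + (9 + 2 * D1), by positivity,
    fun n y j a hn hy hyj hj ha1 ha2 F hF => ?_⟩
  have hjn : 0 ≤ (j : ℝ) * n := by positivity
  have haj : (a : ℝ) ≤ j := by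
    have : a ≤ j := by omega
    exact_mod_cast this
  obtain ⟨X, hXd⟩ : ∃ X, X = Real.exp (j * n + y) := ⟨_, rfl⟩
  have hlX : Real.log X = j * n + y := by rw [hXd, Real.log_exp]
  have hX : 1 ≤ X := by
    rw [hXd]
    exact Real.one_le_exp (by linarith)
  have hXp : 0 < X := by linarith
  have hXε : Real.exp (ε * (j * n + y)) = X ^ ε := by
    rw [Real.rpow_def_of_pos hXp, hlX, mul_comm]
  rw [hXε]
  obtain ⟨P, hP⟩ : ∃ P, P = ((j : ℝ) - a) * n + y := ⟨_, rfl⟩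
  have hP0 : 0 ≤ P := by
    rw [hP]
    have : 0 ≤ ((j : ℝ) - a) * n := mul_nonneg (by linarith) hn
    linarith
  rw [← hP]
  have hXe1 : 1 ≤ X ^ ε := Real.one_le_rpow hX (by positivity)
  have hAX1 : 1 ≤ Real.exp P := Real.one_le_exp hP0
  have hFr : ∀ t ∈ F, Tr t ∧ rr t 0 + rr t 1 + rr t 2 ≤ Real.log X := fun t ht => by
    rw [hlX]
    exact ⟨(hF t ht).1, (hF t ht).rr_le⟩
  rcases lt_or_ge X X0 with hsm | hlarge
  · -- small `X`
    have h1 := hrad X0 hX01 (Icc 1 ⌊X0⌋₊)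
      (by rw [mem_Icc]; exact ⟨le_rfl, Nat.le_floor (by simpa using hX01)⟩)
      (fun m hm => by
        rw [mem_Icc] at hm
        exact ⟨hm.1, (Nat.le_floor_iff hX0p.le).1 hm.2⟩) F (fun t ht => by
        obtain ⟨a1, a2⟩ := hFr t ht
        refine ⟨a1, radi t, ?_, radi_pf t⟩
        rw [mem_Icc]
        exact ⟨radi_pos t, Nat.le_floor ((radi_le a1 hXp a2).trans hsm.le)⟩)
    rw [Nat.card_Icc, Nat.add_sub_cancel] at h1
    have h2 : Da * (⌊X0⌋₊ : ℝ) * X0 ^ (1 : ℝ) ≤ Da * X0 * X0 ^ (1 : ℝ) :=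
      mul_le_mul_of_nonneg_right (mul_le_mul_of_nonneg_left (Nat.floor_le hX0p.le) hDa.le)
        (by positivity)
    calc (F.card : ℝ) ≤ Da * X0 * X0 ^ (1 : ℝ) := h1.trans h2
      _ ≤ Da * X0 * X0 ^ (1 : ℝ) + (9 + 2 * D1) := by linarith only [hD1]
      _ = (Da * X0 * X0 ^ (1 : ℝ) + (9 + 2 * D1)) * 1 * 1 := by ring
      _ ≤ _ := by
          refine mul_le_mul (mul_le_mul_of_nonneg_left hXe1 (by positivity)) hAX1 zero_le_one
            (by positivity)
  have hXX1 : X1 ≤ X := by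
    rw [hX0e] at hlarge
    exact (le_max_left _ _).trans hlarge
  have hXL1 : Real.exp L1 ≤ X := by rw [hX0e] at hlarge; exact (le_max_right _ _).trans hlarge
  obtain ⟨L, hL⟩ : ∃ L, L = Real.log X := ⟨_, rfl⟩
  have hLL1 : L1 ≤ L := by rw [hL, Real.le_log_iff_exp_le hXp]; exact hXL1
  have hL0 : 0 ≤ L := by linarith
  have hPL : P ≤ L := by
    rw [hP, hL, hlX]
    have : (0 : ℝ) ≤ a * n := by positivity
    nlinarith
  obtain ⟨F1, hF1⟩ : ∃ F1, F1 = F.filter fun t => Real.log (t 2) ≤ L ^ (2 + η) := ⟨_, rfl⟩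
  obtain ⟨F2, hF2⟩ : ∃ F2, F2 = F.filter fun t => ¬ Real.log (t 2) ≤ L ^ (2 + η) := ⟨_, rfl⟩
  have hcard : (F.card : ℝ) = F1.card + F2.card := by
    have : F.card = F1.card + F2.card := by
      rw [hF1, hF2]
      exact (Finset.card_filter_add_card_filter_not (s := F)
        (fun t => Real.log (t 2) ≤ L ^ (2 + η))).symm
    rw [this, Nat.cast_add]
  -- small heights
  have d1 : (F1.card : ℝ) ≤ 9 * (X ^ ε * Real.exp P) := by
    have h1 := hsmall X hX (by rw [← hL]; exact hLL1) P hP0 (by rw [← hL]; exact hPL) F1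
      (fun t ht => by
      rw [hF1, mem_filter] at ht
      refine ⟨(hF t ht.1).1, ?_, by rw [← hL]; exact ht.2⟩
      rw [hP]
      exact pairJ hn (hF t ht.1) ha2)
    refine h1.trans (le_of_eq ?_)
    ring
  -- large heights
  obtain ⟨M, hM⟩ : ∃ M, M = ⌊Real.exp (((j : ℝ) - a) * n + y + 2 / k * Real.log X)⌋₊ := ⟨_, rfl⟩
  have hMle : (M : ℝ) ≤ Real.exp P * X ^ (2 / (k : ℝ)) := by
    rw [hM]
    refine (Nat.floor_le (Real.exp_pos _).le).trans (le_of_eq ?_)
    rw [Real.rpow_def_of_pos hXp, ← Real.exp_add, hP]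
    congr 1
    ring
  have hM2 : (M : ℝ) * X ^ (2 / (k : ℝ)) ≤ X := by
    calc (M : ℝ) * X ^ (2 / (k : ℝ)) ≤ (Real.exp P * X ^ (2 / (k : ℝ))) * X ^ (2 / (k : ℝ)) :=
          mul_le_mul_of_nonneg_right hMle (by positivity)
      _ = Real.exp (P + 4 / k * (j * n + y)) := by
          rw [Real.rpow_def_of_pos hXp, ← Real.exp_add, ← Real.exp_add, hlX]
          congr 1
          ring
      _ ≤ Real.exp (j * n + y) := by
          refine Real.exp_le_exp.2 ?_
          have h1 : 4 / (k : ℝ) * (j * n + y) ≤ 4 / k * (6 * (a * n)) := by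
            refine mul_le_mul_of_nonneg_left ?_ (by positivity)
            have h2 : (j : ℝ) ≤ 3 * a := by exact_mod_cast ha1
            nlinarith
          have h2 : 4 / (k : ℝ) * (6 * (a * n)) ≤ a * n := by
            have h3 : 4 / (k : ℝ) * (6 * (a * n)) = (24 / k) * (a * n) := by ring
            have h4 : 24 / (k : ℝ) ≤ 1 := by rwa [div_le_one hkp]
            rw [h3]
            have h5 : (0 : ℝ) ≤ a * n := by positivity
            nlinarith
          rw [hP]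
          linarith
      _ = X := hXd.symm
  have d2 : (F2.card : ℝ) ≤ 2 * D1 * (X ^ ε * Real.exp P) := by
    have h1 := hcnt X hXX1 M hM2 F2 (fun t ht => by
      rw [hF2, mem_filter] at ht
      refine ⟨(hF t ht.1).1, (hFr t ht.1).2, by rw [← hL]; exact ht.2, fun l hl hs => ?_⟩
      rw [hM]
      exact good_mJ (by omega) hX hl hs hn (hF t ht.1) hj ha1 ha2 hlX)
    refine h1.trans ?_
    have h2 : (M : ℝ) + 1 ≤ 2 * (Real.exp P * X ^ (2 / (k : ℝ))) := by
      have h3 : 1 ≤ Real.exp P * X ^ (2 / (k : ℝ)) :=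
        one_le_mul_of_one_le_of_one_le hAX1 (Real.one_le_rpow hX (by positivity))
      linarith
    calc D1 * ((M : ℝ) + 1) * X ^ (5 / (k : ℝ)) ≤
        D1 * (2 * (Real.exp P * X ^ (2 / (k : ℝ)))) * X ^ (5 / (k : ℝ)) := by
          refine mul_le_mul_of_nonneg_right (mul_le_mul_of_nonneg_left h2 hD1.le) (by positivity)
      _ = 2 * D1 * ((X ^ (2 / (k : ℝ)) * X ^ (5 / (k : ℝ))) * Real.exp P) := by ring
      _ = 2 * D1 * (X ^ (7 / (k : ℝ)) * Real.exp P) := by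
          rw [← Real.rpow_add hXp]
          congr 3
          ring
      _ ≤ _ := by
          refine mul_le_mul_of_nonneg_left ?_ (by positivity)
          exact mul_le_mul_of_nonneg_right (Real.rpow_le_rpow_of_exponent_le hX hkε)
            (Real.exp_pos _).le
  have hPP : 0 ≤ Da * X0 * X0 ^ (1 : ℝ) * (X ^ ε * Real.exp P) := by positivity
  rw [hcard]
  have hfin : (Da * X0 * X0 ^ (1 : ℝ) + (9 + 2 * D1)) * X ^ ε * Real.exp P =
      Da * X0 * X0 ^ (1 : ℝ) * (X ^ ε * Real.exp P) +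
      (9 * (X ^ ε * Real.exp P) + 2 * D1 * (X ^ ε * Real.exp P)) := by
    ring
  rw [hfin]
  linarith only [d1, d2, hPP]

end Pool.Agent.X61.LP
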