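import Mathlib
import Pool.Agent.X61.RS.Base

/-! The integers up to `N` composed of given primes. -/

set_option autoImplicit false

namespace Pool.Agent.X61.LP

open Finset

/-- `n ↦ n^(-σ)` -/
noncomputable def pw (σ : ℝ) : ℕ →* ℝ where
  toFun n := (n : ℝ) ^ (-σ)
  map_one' := by simp
  map_mul' a b := by
    push_cast
    exact Real.mul_rpow (by positivity) (by positivity)

theorem pow_lt_one' {σ : ℝ} (hσ : 0 < σ) {p : ℕ} (hp : p.Prime) : (p : ℝ) ^ (-σ) < 1 := by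
  apply Real.rpow_lt_one_of_one_lt_of_neg
  · exact_mod_cast hp.one_lt
  · linarith

theorem supp_sum {σ : ℝ} (hσ : 0 < σ) (S : Finset ℕ) (hS : ∀ p ∈ S, p.Prime) (N : ℕ) :
    ∑ n ∈ (Icc 1 N).filter (fun n => n.primeFactors ⊆ S), (n : ℝ) ^ (-σ) ≤
      ∏ p ∈ S, (1 - (p : ℝ) ^ (-σ))⁻¹ := by
  classical
  have h := EulerProduct.summable_and_hasSum_factoredNumbers_prod_filter_prime_geometric
    (f := pw σ) (by
      intro p hp
      have h1 : (pw σ) p = (p : ℝ) ^ (-σ) := rfl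
      rw [h1, Real.norm_of_nonneg (by positivity)]
      exact pow_lt_one' hσ hp) S
  have h2 := h.2
  have e1 : (∏ p ∈ S with p.Prime, (1 - (pw σ) p)⁻¹) = ∏ p ∈ S, (1 - (p : ℝ) ^ (-σ))⁻¹ := by
    rw [filter_true_of_mem hS]
    rfl
  rw [e1] at h2
  set F := (Icc 1 N).filter (fun n => n.primeFactors ⊆ S) with hF
  have hmem : ∀ n ∈ F, n ∈ Nat.factoredNumbers S := by
    intro n hn
    rw [hF, mem_filter, mem_Icc] at hn
    rw [Nat.mem_factoredNumbers]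
    refine ⟨by omega, fun p hp => ?_⟩
    exact hn.2 (Nat.mem_primeFactors.2 ⟨Nat.prime_of_mem_primeFactorsList hp,
      Nat.dvd_of_mem_primeFactorsList hp, by omega⟩)
  have h3 := sum_le_hasSum (F.attach.image (fun n => (⟨n.1, hmem n.1 n.2⟩ : Nat.factoredNumbers S)))
    (fun i _ => by
      have : (0 : ℝ) ≤ (i.1 : ℝ) ^ (-σ) := by positivity
      exact this) h2
  rw [sum_image (by
    intro a _ b _ hab
    have := congrArg Subtype.val hab
    exact Subtype.ext this)] at h3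
  refine le_trans (le_of_eq ?_) h3
  rw [← sum_attach]
  rfl

/-- `c ^ |S| ≤ C (∏ S) ^ ε` -/
theorem pow_card {c ε : ℝ} (hc : 0 ≤ c) (hε : 0 < ε) : ∃ C : ℝ, 1 ≤ C ∧ ∀ F : Finset ℕ,
    (∀ p ∈ F, p.Prime) → c ^ F.card ≤ C * ((∏ p ∈ F, p : ℕ) : ℝ) ^ ε := by
  obtain ⟨m, hm⟩ := pow_unbounded_of_one_lt c (show (1 : ℝ) < 2 by norm_num)
  have hm0 : (0 : ℝ) < (m + 1 : ℕ) := by positivity
  obtain ⟨C, hC, h⟩ := Pool.Agent.X61.RS.two_pow_card (show 0 < ε / (m + 1 : ℕ) by positivity)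
  refine ⟨C ^ (m + 1), one_le_pow₀ hC, fun F hF => ?_⟩
  have h1 := h F hF
  calc c ^ F.card ≤ ((2 : ℝ) ^ (m + 1)) ^ F.card := by
        refine pow_le_pow_left₀ hc (hm.le.trans ?_) _
        exact pow_le_pow_right₀ (by norm_num) (by omega)
    _ = ((2 : ℝ) ^ F.card) ^ (m + 1) := by rw [← pow_mul, ← pow_mul, mul_comm]
    _ ≤ (C * ((∏ p ∈ F, p : ℕ) : ℝ) ^ (ε / (m + 1 : ℕ))) ^ (m + 1) :=
        pow_le_pow_left₀ (by positivity) h1 _
    _ = _ := by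
        rw [mul_pow, ← Real.rpow_natCast (_ ^ (ε / (m + 1 : ℕ))), ← Real.rpow_mul (by positivity)]
        congr 2
        field_simp

/-- **The integers up to `N` composed of primes of `S`.** -/
theorem supported_count {ε : ℝ} (hε : 0 < ε) : ∃ C : ℝ, 1 ≤ C ∧ ∀ (S : Finset ℕ) (N : ℕ),
    (∀ p ∈ S, p.Prime) →
    (((Icc 1 N).filter (fun n => n.primeFactors ⊆ S)).card : ℝ) ≤
      C * (N : ℝ) ^ ε * ((∏ p ∈ S, p : ℕ) : ℝ) ^ ε := by
  have h21 : (2 : ℝ) ^ (-ε) < 1 := Real.rpow_lt_one_of_one_lt_of_neg (by norm_num) (by linarith)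
  obtain ⟨C, hC, h⟩ := pow_card (c := (1 - (2 : ℝ) ^ (-ε))⁻¹) (ε := ε)
    (inv_nonneg.2 (by linarith)) hε
  refine ⟨C, hC, fun S N hS => ?_⟩
  have h1 := supp_sum hε S hS N
  have h2 : (((Icc 1 N).filter (fun n => n.primeFactors ⊆ S)).card : ℝ) ≤
      (N : ℝ) ^ ε * ∑ n ∈ (Icc 1 N).filter (fun n => n.primeFactors ⊆ S), (n : ℝ) ^ (-ε) := by
    rw [mul_sum, card_eq_sum_ones, Nat.cast_sum]
    refine sum_le_sum fun n hn => ?_
    rw [mem_filter, mem_Icc] at hn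
    have hn0 : (0 : ℝ) < n := by exact_mod_cast hn.1.1
    rw [Real.rpow_neg hn0.le, Nat.cast_one, ← div_eq_mul_inv, one_le_div (by positivity)]
    exact Real.rpow_le_rpow hn0.le (by exact_mod_cast hn.1.2) hε.le
  have h3 : ∏ p ∈ S, (1 - (p : ℝ) ^ (-ε))⁻¹ ≤ ((1 - (2 : ℝ) ^ (-ε))⁻¹) ^ S.card := by
    rw [← prod_const]
    refine prod_le_prod (fun p hp => ?_) fun p hp => ?_
    · have := pow_lt_one' hε (hS p hp)
      exact inv_nonneg.2 (by linarith)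
    · have hp2 : (2 : ℝ) ≤ p := by exact_mod_cast (hS p hp).two_le
      have : (p : ℝ) ^ (-ε) ≤ (2 : ℝ) ^ (-ε) :=
        Real.rpow_le_rpow_of_nonpos (by norm_num) hp2 (by linarith)
      exact inv_anti₀ (by linarith) (by linarith)
  calc _ ≤ (N : ℝ) ^ ε * ∑ n ∈ (Icc 1 N).filter (fun n => n.primeFactors ⊆ S), (n : ℝ) ^ (-ε) := h2
    _ ≤ (N : ℝ) ^ ε * (C * ((∏ p ∈ S, p : ℕ) : ℝ) ^ ε) :=
        mul_le_mul_of_nonneg_left (h1.trans (h3.trans (h S hS))) (by positivity)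
    _ = _ := by ring

end Pool.Agent.X61.LP
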