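import Pool.Agent.X61.LP.Count
import Pool.Agent.X61.LP.Smooth

/-! Integers with a large prime factor and abc triples of all heights. -/

set_option autoImplicit false

namespace Pool.Agent.X61.LP

open Finset
open Pool.Agent.TH867.SR (Tr N3 rr rr_sum rr_nonneg log_prod_primes log_prime_nonneg)

/-- the product of the primes dividing `n` -/
def rad (n : ℕ) : ℕ := ∏ p ∈ n.primeFactors, p

theorem rad_pos (n : ℕ) : 0 < rad n := prod_pos fun _ hp => (Nat.prime_of_mem_primeFactors hp).pos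

/-- the ordered triple -/
def tri (a b : ℕ) : Fin 3 → ℕ := ![min a b, max a b, a + b]

theorem tri_tr {a b : ℕ} (ha : 0 < a) (hb : 0 < b) (hab : Nat.Coprime a b) : Tr (tri a b) := by
  rcases le_total a b with h | h
  · have e : tri a b = ![a, b, a + b] := by rw [tri, min_eq_left h, max_eq_right h]
    rw [e]
    exact ⟨ha, h, hab, rfl⟩
  · have e : tri a b = ![b, a, a + b] := by rw [tri, min_eq_right h, max_eq_left h]
    rw [e]
    exact ⟨hb, h, hab.symm, by simp [add_comm]⟩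

theorem tri_N3 (a b : ℕ) : N3 (tri a b) = a * b * (a + b) := by
  have : N3 (tri a b) = min a b * max a b * (a + b) := rfl
  rw [this, min_mul_max]

theorem tri_rr {a b : ℕ} (ha : 0 < a) (hb : 0 < b) (hab : Nat.Coprime a b) :
    rr (tri a b) 0 + rr (tri a b) 1 + rr (tri a b) 2 = Real.log (rad (a * b * (a + b))) := by
  rw [← rr_sum (tri_tr ha hb hab), tri_N3, rad,
    log_prod_primes fun _ hq => Nat.prime_of_mem_primeFactors hq]

/-- the integers `n` dividing `a b c` for an abc triple of any height with `rad (abc) ≤ r Y` for a prime factor `r` of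
`n` -/
def BadInt (Y : ℝ) (n : ℕ) : Prop :=
  ∃ r : ℕ, r.Prime ∧ r ∣ n ∧ ∃ a b : ℕ, 0 < a ∧ 0 < b ∧ Nat.Coprime a b ∧ n ∣ a * b * (a + b) ∧
    (rad (a * b * (a + b)) : ℝ) ≤ r * Y

open Classical in
theorem int_count (ε : ℝ) (hε : 0 < ε) : ∃ C : ℝ, 0 < C ∧ ∀ (N : ℕ) (Y : ℝ), 1 ≤ N → 1 ≤ Y →
    Y ≤ N → (((Icc 1 N).filter (BadInt Y)).card : ℝ) ≤ C * (N : ℝ) ^ ε * Y := by
  obtain ⟨D, hD, hcnt⟩ := count_J (ε / 5) (by positivity)
  obtain ⟨C, hC, hsup⟩ := supported_count (show 0 < ε / 5 by positivity)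
  refine ⟨C * D, by positivity, fun N Y hN hY hYN => ?_⟩
  have hN1 : (1 : ℝ) ≤ N := by exact_mod_cast hN
  have hN0 : (0 : ℝ) < N := by linarith
  have hY0 : 0 < Y := by linarith
  set B := (Icc 1 N).filter (BadInt Y) with hB
  have hBm : ∀ n ∈ B, (1 ≤ n ∧ n ≤ N) ∧ BadInt Y n := fun n hn => by
    rw [hB, mem_filter, mem_Icc] at hn
    exact hn
  choose! r hr1 hr2 a b ha hb hab hd hrad using fun (n : ℕ) (hn : n ∈ B) => (hBm n hn).2
  set g : ℕ → (Fin 3 → ℕ) := fun n => tri (a n) (b n) with hg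
  -- the triples
  have hcls : ∀ t ∈ B.image g, Cls 1 (Real.log N) (Real.log Y) t := by
    intro t ht
    obtain ⟨n, hn, rfl⟩ := mem_image.1 ht
    have htr := tri_tr (ha n hn) (hb n hn) (hab n hn)
    have hN3 : N3 (g n) ≠ 0 := htr.N3_pos.ne'
    have hrn : r n ≤ N := (Nat.le_of_dvd (hBm n hn).1.1 (hr2 n hn)).trans (hBm n hn).1.2
    have hr0 : (0 : ℝ) < r n := by exact_mod_cast (hr1 n hn).pos
    refine ⟨htr, {r n}, card_singleton _, ?_, ?_, ?_⟩
    · rw [singleton_subset_iff, Nat.mem_primeFactors]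
      refine ⟨hr1 n hn, ?_, hN3⟩
      rw [hg, tri_N3]
      exact (hr2 n hn).trans (hd n hn)
    · intro q hq
      rw [mem_singleton] at hq
      rw [hq]
      exact Real.log_le_log hr0 (by exact_mod_cast hrn)
    · rw [sum_singleton, tri_rr (ha n hn) (hb n hn) (hab n hn), sub_le_iff_le_add,
        ← Real.log_mul hY0.ne' hr0.ne']
      refine Real.log_le_log (by exact_mod_cast rad_pos _) ?_
      rw [mul_comm Y]
      exact hrad n hn
  have h1 := hcnt (Real.log N) (Real.log Y) 1 1 (Real.log_nonneg hN1) (Real.log_nonneg hY)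
    (by rw [Nat.cast_one, one_mul]; exact Real.log_le_log hY0 hYN) le_rfl (by norm_num) (by norm_num)
    (B.image g) hcls
  -- the fibres
  have h2 : ∀ t ∈ B.image g, ((B.filter (fun n => g n = t)).card : ℝ) ≤
      C * (N : ℝ) ^ (ε / 5) * ((N : ℝ) ^ (2 * (ε / 5))) := by
    intro t ht
    obtain ⟨htr, J, -⟩ := hcls t ht
    have hrr := (hcls t ht).rr_le
    have h3 := hsup (N3 t).primeFactors N (fun p hp => Nat.prime_of_mem_primeFactors hp)
    have h4 : ((∏ p ∈ (N3 t).primeFactors, p : ℕ) : ℝ) ≤ (N : ℝ) ^ (2 : ℝ) := by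
      have hpos : (0 : ℝ) < ((∏ p ∈ (N3 t).primeFactors, p : ℕ) : ℝ) := by
        exact_mod_cast prod_pos fun p hp => (Nat.prime_of_mem_primeFactors hp).pos
      rw [← Real.log_le_log_iff hpos (by positivity), Real.log_rpow hN0,
        log_prod_primes (fun p hp => Nat.prime_of_mem_primeFactors hp), rr_sum htr]
      have := Real.log_le_log hY0 hYN
      push_cast at hrr
      linarith
    have h5 : (B.filter (fun n => g n = t)) ⊆
        (Icc 1 N).filter (fun n => n.primeFactors ⊆ (N3 t).primeFactors) := by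
      intro n hn
      rw [mem_filter] at hn
      obtain ⟨hnB, hgn⟩ := hn
      rw [mem_filter, mem_Icc]
      refine ⟨(hBm n hnB).1, ?_⟩
      rw [← hgn, hg, tri_N3]
      refine Nat.primeFactors_mono (hd n hnB) ?_
      have := ha n hnB
      have := hb n hnB
      positivity
    calc ((B.filter (fun n => g n = t)).card : ℝ) ≤
        (((Icc 1 N).filter (fun n => n.primeFactors ⊆ (N3 t).primeFactors)).card : ℝ) := by
          exact_mod_cast card_le_card h5
      _ ≤ C * (N : ℝ) ^ (ε / 5) * ((∏ p ∈ (N3 t).primeFactors, p : ℕ) : ℝ) ^ (ε / 5) := h3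
      _ ≤ C * (N : ℝ) ^ (ε / 5) * ((N : ℝ) ^ (2 : ℝ)) ^ (ε / 5) := by
          refine mul_le_mul_of_nonneg_left (Real.rpow_le_rpow (by positivity) h4 (by positivity))
            (by positivity)
      _ = _ := by rw [← Real.rpow_mul hN0.le]
  have h3 : (B.card : ℝ) = ∑ t ∈ B.image g, ((B.filter (fun n => g n = t)).card : ℝ) := by
    exact_mod_cast card_eq_sum_card_image g B
  have h4 : D * Real.exp (ε / 5 * ((1 : ℕ) * Real.log N + Real.log Y)) *
      Real.exp ((((1 : ℕ) : ℝ) - (1 : ℕ)) * Real.log N + Real.log Y) ≤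
      D * (N : ℝ) ^ (2 * (ε / 5)) * Y := by
    have e1 : Real.exp ((((1 : ℕ) : ℝ) - (1 : ℕ)) * Real.log N + Real.log Y) = Y := by
      rw [sub_self, zero_mul, zero_add, Real.exp_log hY0]
    rw [e1]
    have e2 : Real.exp (ε / 5 * ((1 : ℕ) * Real.log N + Real.log Y)) ≤ (N : ℝ) ^ (2 * (ε / 5)) := by
      rw [Real.rpow_def_of_pos hN0]
      refine Real.exp_le_exp.2 ?_
      have := Real.log_le_log hY0 hYN
      push_cast
      nlinarith
    gcongr
  rw [h3]
  calc ∑ t ∈ B.image g, ((B.filter (fun n => g n = t)).card : ℝ)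
      ≤ ∑ _t ∈ B.image g, (C * (N : ℝ) ^ (ε / 5) * ((N : ℝ) ^ (2 * (ε / 5)))) := sum_le_sum h2
    _ = ((B.image g).card : ℝ) * (C * (N : ℝ) ^ (ε / 5) * ((N : ℝ) ^ (2 * (ε / 5)))) := by
        rw [sum_const, nsmul_eq_mul]
    _ ≤ (D * (N : ℝ) ^ (2 * (ε / 5)) * Y) * (C * (N : ℝ) ^ (ε / 5) * ((N : ℝ) ^ (2 * (ε / 5)))) :=
        mul_le_mul_of_nonneg_right (h1.trans h4) (by positivity)
    _ = C * D * ((N : ℝ) ^ (2 * (ε / 5)) * (N : ℝ) ^ (ε / 5) * (N : ℝ) ^ (2 * (ε / 5))) * Y := by ring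
    _ = _ := by
        rw [← Real.rpow_add hN0, ← Real.rpow_add hN0]
        congr 3
        ring

end Pool.Agent.X61.LP
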